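import Pool.Agent.Lib.LU1_h15.Etale

/-!
# ALLDEFECT, block Z, row L6b: descent of generators along `C ⊆ A₂ = locv C[θ]`

`A₂` is the ring of a frame of `K₂ = E(θ)`, `C = A₂ ∩ E`, `θ` is integral over `C` of degree
`m = [K₂ : E]`.  If the monomials `χ` of a frame of `A₂` can be chosen in `E`, `C` is the ring of a
frame.
-/

set_option autoImplicit false

open Polynomial

namespace Pool.Agent.ALL

open Pool.Agent.H15JM (RVal)
open Pool.Agent.LU1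

universe u

section Desc

variable {k Ω : Type u} [Field k] [Field Ω] [Algebra k Ω] {v : RVal Ω}

/-- Elements of `S[θ]` are values at `θ` of polynomials over `S`. -/
theorem exists_aeval_of_mem (S : Subalgebra k Ω) (θ : Ω) {x : Ω}
    (hx : x ∈ Algebra.adjoin k ((S : Set Ω) ∪ {θ})) : ∃ P : Polynomial S, aeval θ P = x := by
  induction hx using Algebra.adjoin_induction with
  | mem x hx =>
    rcases hx with hx | hx
    · exact ⟨C ⟨x, hx⟩, by rw [aeval_C]; rfl⟩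
    · exact ⟨X, by rw [aeval_X]; exact hx.symm⟩
  | algebraMap c => exact ⟨C (algebraMap k S c), by rw [aeval_C]; rfl⟩
  | add x y _ _ hx hy =>
    obtain ⟨P, rfl⟩ := hx
    obtain ⟨Q, rfl⟩ := hy
    exact ⟨P + Q, map_add _ _ _⟩
  | mul x y _ _ hx hy =>
    obtain ⟨P, rfl⟩ := hx
    obtain ⟨Q, rfl⟩ := hy
    exact ⟨P * Q, map_mul _ _ _⟩

/-- Elements of `S[θ]` are combinations of `1, …, θ^(m-1)`. -/
theorem exists_coeff_of_mem (S : Subalgebra k Ω) (θ : Ω) (f : Polynomial Ω) (hf : f.Monic)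
    (hc : ∀ i, f.coeff i ∈ S) (h0 : f.eval θ = 0) {x : Ω}
    (hx : x ∈ Algebra.adjoin k ((S : Set Ω) ∪ {θ})) :
    ∃ c : ℕ → Ω, (∀ i, c i ∈ S) ∧ x = ∑ i ∈ Finset.range f.natDegree, c i * θ ^ i := by
  obtain ⟨P, rfl⟩ := exists_aeval_of_mem S θ hx
  have hlift : f ∈ Polynomial.lifts (algebraMap S Ω) := by
    rw [Polynomial.lifts_iff_coeff_lifts]
    intro i
    exact ⟨⟨f.coeff i, hc i⟩, rfl⟩
  obtain ⟨g, hg, hdeg, hmon⟩ := Polynomial.lifts_and_natDegree_eq_and_monic hlift hf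
  have hgθ : aeval θ g = 0 := by
    rw [aeval_def, ← eval_map, hg]
    exact h0
  have h1 : aeval θ (P %ₘ g) = aeval θ P := by
    have := congrArg (aeval θ) (modByMonic_add_div P g)
    rw [map_add, map_mul, hgθ, zero_mul, add_zero] at this
    exact this
  have hdeg0 : g.natDegree ≠ 0 := by
    intro h
    have h2 := hmon.natDegree_eq_zero.1 h
    rw [h2, map_one] at hgθ
    exact one_ne_zero hgθ
  have hlt : (P %ₘ g).natDegree < f.natDegree := by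
    rw [← hdeg]
    exact natDegree_modByMonic_lt P hmon (fun h => hdeg0 (by rw [h, natDegree_one]))
  refine ⟨fun i => ((P %ₘ g).coeff i : Ω), fun i => ((P %ₘ g).coeff i).2, ?_⟩
  rw [← h1, aeval_eq_sum_range' hlt]
  exact Finset.sum_congr rfl fun i _ => by rw [Algebra.smul_def]; rfl

theorem vpos_sum {κ : Type*} (s : Finset κ) (f : κ → Ω) (h : ∀ i ∈ s, VPos v (f i)) :
    VPos v (∑ i ∈ s, f i) := by
  classical
  induction s using Finset.induction_on with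
  | empty => rw [Finset.sum_empty]; exact VPos.zero
  | insert a s ha ih =>
    rw [Finset.sum_insert ha]
    exact (h a (Finset.mem_insert_self _ _)).add
      (ih fun i hi => h i (Finset.mem_insert_of_mem hi))

/-- Relations with one unit coefficient descend from `S[θ]` to `S`. -/
theorem descend_coeff (S : Subalgebra k Ω) (E : IntermediateField k Ω)
    (hS0 : ∀ s ∈ S, v.Ge 0 s) (hSl : ∀ s ∈ S, s ≠ 0 → v s = 0 → s⁻¹ ∈ S)
    (hSE : ∀ s ∈ S, s ∈ E) (θ : Ω) (hθ : v.Ge 0 θ) (f : Polynomial Ω) (hf : f.Monic)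
    (hc : ∀ i, f.coeff i ∈ S) (h0 : f.eval θ = 0)
    (hind : ∀ c : ℕ → Ω, (∀ i, c i ∈ E) → ∑ i ∈ Finset.range f.natDegree, c i * θ ^ i = 0 →
      ∀ i < f.natDegree, c i = 0)
    {a t : Ω} (ha : a ∈ E) (ht : t ∈ Algebra.adjoin k ((S : Set Ω) ∪ {θ})) (ht0 : t ≠ 0)
    (hvt : v t = 0) {κ : Type*} [Fintype κ] (e x : κ → Ω) (he : ∀ l, e l ∈ E)
    (hx : ∀ l, x l ∈ Algebra.adjoin k ((S : Set Ω) ∪ {θ})) (h : a * t = ∑ l, e l * x l) :
    ∃ c : κ → Ω, (∀ l, c l ∈ S) ∧ a = ∑ l, e l * c l := by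
  obtain ⟨τ, hτ, hτe⟩ := exists_coeff_of_mem S θ f hf hc h0 ht
  have hx' : ∀ l, ∃ c : ℕ → Ω, (∀ i, c i ∈ S) ∧
      x l = ∑ i ∈ Finset.range f.natDegree, c i * θ ^ i := fun l =>
    exists_coeff_of_mem S θ f hf hc h0 (hx l)
  choose ξ hξ hξe using hx'
  -- one coefficient of `t` is a unit
  obtain ⟨i, hi, hi0, hvi⟩ : ∃ i < f.natDegree, τ i ≠ 0 ∧ v (τ i) = 0 := by
    by_contra hcon
    push Not at hcon
    have h1 : VPos v t := by
      rw [hτe]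
      refine vpos_sum _ _ fun i hi => ?_
      have h2 : VPos v (τ i) := fun h3 =>
        lt_of_le_of_ne (hS0 _ (hτ i) h3) (Ne.symm (hcon i (Finset.mem_range.1 hi) h3))
      refine h2.mul ?_
      have h3 : ∀ n : ℕ, v.Ge 0 (θ ^ n) := by
        intro n hn
        rcases Nat.eq_zero_or_pos n with rfl | hpos
        · rw [pow_zero, v.map_one]
        · have h4 : θ ≠ 0 := by
            rintro rfl
            rw [zero_pow hpos.ne'] at hn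
            exact hn rfl
          rw [v.map_pow h4]
          exact mul_nonneg (Nat.cast_nonneg _) (hθ h4)
      exact h3 i
    exact absurd (h1 ht0) (by rw [hvt]; exact lt_irrefl _)
  have hrel : ∑ i ∈ Finset.range f.natDegree, (a * τ i - ∑ l, e l * ξ l i) * θ ^ i = 0 := by
    have h1 : ∑ i ∈ Finset.range f.natDegree, (a * τ i - ∑ l, e l * ξ l i) * θ ^ i =
        a * t - ∑ l, e l * x l := by
      rw [hτe, Finset.mul_sum]
      simp only [sub_mul, Finset.sum_sub_distrib, hξe, Finset.mul_sum, Finset.sum_mul, mul_assoc]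
      congr 1
      rw [Finset.sum_comm]
    rw [h1, h, sub_self]
  have h2 := hind (fun i => a * τ i - ∑ l, e l * ξ l i) (fun i => by
    refine E.sub_mem (E.mul_mem ha (hSE _ (hτ i))) (sum_mem fun l _ => ?_)
    exact E.mul_mem (he l) (hSE _ (hξ l i))) hrel i hi
  refine ⟨fun l => ξ l i * (τ i)⁻¹, fun l => S.mul_mem (hξ l i) (hSl _ (hτ i) hi0 hvi), ?_⟩
  have h3 : a * τ i = ∑ l, e l * ξ l i := sub_eq_zero.1 h2
  have h4 : ∑ l, e l * (ξ l i * (τ i)⁻¹) = (∑ l, e l * ξ l i) * (τ i)⁻¹ := by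
    rw [Finset.sum_mul]
    exact Finset.sum_congr rfl fun l _ => (mul_assoc _ _ _).symm
  rw [h4, ← h3, mul_inv_cancel_right₀ hi0]

/-- Finitely many elements of `S[θ]` are in `k[F, θ]` for a finite subset `F` of `S`. -/
theorem exists_finset_adjoin (S : Subalgebra k Ω) (θ : Ω) {x : Ω}
    (hx : x ∈ Algebra.adjoin k ((S : Set Ω) ∪ {θ})) :
    ∃ F : Finset Ω, (∀ s ∈ F, s ∈ S) ∧ x ∈ Algebra.adjoin k ((F : Set Ω) ∪ {θ}) := by
  classical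
  induction hx using Algebra.adjoin_induction with
  | mem x hx =>
    rcases hx with hx | hx
    · exact ⟨{x}, fun s hs => by rw [Finset.mem_singleton.1 hs]; exact hx,
        Algebra.subset_adjoin (Or.inl (by simp))⟩
    · exact ⟨∅, fun s hs => absurd hs (Finset.notMem_empty s), Algebra.subset_adjoin (Or.inr hx)⟩
  | algebraMap c =>
    exact ⟨∅, fun s hs => absurd hs (Finset.notMem_empty s), Subalgebra.algebraMap_mem _ c⟩
  | add x y _ _ hx hy =>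
    obtain ⟨F, hF, hx⟩ := hx
    obtain ⟨G, hG, hy⟩ := hy
    refine ⟨F ∪ G, fun s hs => (Finset.mem_union.1 hs).elim (hF s) (hG s), add_mem ?_ ?_⟩
    · exact Algebra.adjoin_mono (Set.union_subset_union_left _ (by simp)) hx
    · exact Algebra.adjoin_mono (Set.union_subset_union_left _ (by simp)) hy
  | mul x y _ _ hx hy =>
    obtain ⟨F, hF, hx⟩ := hx
    obtain ⟨G, hG, hy⟩ := hy
    refine ⟨F ∪ G, fun s hs => (Finset.mem_union.1 hs).elim (hF s) (hG s), mul_mem ?_ ?_⟩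
    · exact Algebra.adjoin_mono (Set.union_subset_union_left _ (by simp)) hx
    · exact Algebra.adjoin_mono (Set.union_subset_union_left _ (by simp)) hy

theorem exists_finset_locv (S : Subalgebra k Ω) (θ : Ω) {x : Ω}
    (hx : x ∈ locv v (Algebra.adjoin k ((S : Set Ω) ∪ {θ}))) :
    ∃ F : Finset Ω, (∀ s ∈ F, s ∈ S) ∧ x ∈ locv v (Algebra.adjoin k ((F : Set Ω) ∪ {θ})) := by
  classical
  obtain ⟨a, ha, b, hb, hb0, hvb, rfl⟩ := hx
  obtain ⟨F, hF, ha⟩ := exists_finset_adjoin S θ ha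
  obtain ⟨G, hG, hb⟩ := exists_finset_adjoin S θ hb
  refine ⟨F ∪ G, fun s hs => (Finset.mem_union.1 hs).elim (hF s) (hG s), a, ?_, b, ?_, hb0, hvb,
    rfl⟩
  · exact Algebra.adjoin_mono (Set.union_subset_union_left _ (by simp)) ha
  · exact Algebra.adjoin_mono (Set.union_subset_union_left _ (by simp)) hb

theorem exists_finset_locv_all (S : Subalgebra k Ω) (θ : Ω) (G : Finset Ω)
    (hG : ∀ x ∈ G, x ∈ locv v (Algebra.adjoin k ((S : Set Ω) ∪ {θ}))) :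
    ∃ F : Finset Ω, (∀ s ∈ F, s ∈ S) ∧
      ∀ x ∈ G, x ∈ locv v (Algebra.adjoin k ((F : Set Ω) ∪ {θ})) := by
  classical
  have h : ∀ x : Ω, ∃ F : Finset Ω, (∀ s ∈ F, s ∈ S) ∧
      (x ∈ G → x ∈ locv v (Algebra.adjoin k ((F : Set Ω) ∪ {θ}))) := by
    intro x
    by_cases hx : x ∈ G
    · obtain ⟨F, hF, hx'⟩ := exists_finset_locv S θ (hG x hx)
      exact ⟨F, hF, fun _ => hx'⟩
    · exact ⟨∅, fun s hs => absurd hs (Finset.notMem_empty s), fun h => absurd h hx⟩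
  choose F hF hFx using h
  refine ⟨G.biUnion F, fun s hs => ?_, fun x hx => ?_⟩
  · obtain ⟨x, -, hx⟩ := Finset.mem_biUnion.1 hs
    exact hF x s hx
  · refine locv_mono (Algebra.adjoin_mono (Set.union_subset_union_left _ ?_)) (hFx x hx)
    intro s hs
    exact Finset.mem_coe.2 (Finset.mem_biUnion.2 ⟨x, hx, hs⟩)

/-- Row L6b, `GEN`. -/
theorem descend_gen (E : IntermediateField k Ω) (A₂ C : Subalgebra k Ω)
    (hA0 : ∀ a ∈ A₂, v.Ge 0 a) (hAl : ∀ a ∈ A₂, a ≠ 0 → v a = 0 → a⁻¹ ∈ A₂)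
    (hC : ∀ x, x ∈ C ↔ x ∈ A₂ ∧ x ∈ E)
    (θ : Ω) (hθ : θ ∈ A₂) (f : Polynomial Ω) (hf : f.Monic) (hc : ∀ i, f.coeff i ∈ C)
    (h0 : f.eval θ = 0)
    (hind : ∀ c : ℕ → Ω, (∀ i, c i ∈ E) → ∑ i ∈ Finset.range f.natDegree, c i * θ ^ i = 0 →
      ∀ i < f.natDegree, c i = 0)
    (hA : A₂ = locv v (Algebra.adjoin k ((C : Set Ω) ∪ {θ})))
    {κ : Type*} [Fintype κ] (e : κ → Ω) (he : ∀ l, e l ∈ E) {a : Ω} (ha : a ∈ C)
    (b : κ → Ω) (hb : ∀ l, b l ∈ A₂) (hab : a = ∑ l, e l * b l) :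
    ∃ c : κ → Ω, (∀ l, c l ∈ C) ∧ a = ∑ l, e l * c l := by
  classical
  have hC0 : ∀ s ∈ C, v.Ge 0 s := fun s hs => hA0 s ((hC s).1 hs).1
  have hCl : ∀ s ∈ C, s ≠ 0 → v s = 0 → s⁻¹ ∈ C := fun s hs h1 h2 =>
    (hC _).2 ⟨hAl s ((hC s).1 hs).1 h1 h2, E.inv_mem ((hC s).1 hs).2⟩
  have hb' : ∀ l, ∃ x t : Ω, x ∈ Algebra.adjoin k ((C : Set Ω) ∪ {θ}) ∧
      t ∈ Algebra.adjoin k ((C : Set Ω) ∪ {θ}) ∧ t ≠ 0 ∧ v t = 0 ∧ b l = x / t := by
    intro l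
    have := hb l
    rw [hA] at this
    obtain ⟨x, hx, t, ht, ht0, hvt, h⟩ := this
    exact ⟨x, t, hx, ht, ht0, hvt, h⟩
  choose x t hx ht ht0 hvt hxt using hb'
  have hprod : ∀ s : Finset κ, (∏ l ∈ s, t l) ≠ 0 ∧ v (∏ l ∈ s, t l) = 0 := by
    intro s
    induction s using Finset.induction_on with
    | empty => exact ⟨by simp, by rw [Finset.prod_empty, v.map_one]⟩
    | insert l s hl ih =>
      rw [Finset.prod_insert hl]
      exact ⟨mul_ne_zero (ht0 l) ih.1, by rw [v.map_mul (ht0 l) ih.1, hvt l, ih.2, add_zero]⟩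
  have hmem : ∀ s : Finset κ, (∏ l ∈ s, t l) ∈ Algebra.adjoin k ((C : Set Ω) ∪ {θ}) :=
    fun s => Subalgebra.prod_mem _ fun l _ => ht l
  obtain ⟨hT0, hTv⟩ := hprod Finset.univ
  refine descend_coeff C E hC0 hCl (fun s hs => ((hC s).1 hs).2) θ (hA0 θ hθ) f hf hc h0 hind
    ((hC a).1 ha).2 (hmem Finset.univ) hT0 hTv e
    (fun l => x l * ∏ l' ∈ Finset.univ.erase l, t l') he
    (fun l => Subalgebra.mul_mem _ (hx l) (hmem _)) ?_
  rw [hab, Finset.sum_mul]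
  refine Finset.sum_congr rfl fun l _ => ?_
  rw [← Finset.mul_prod_erase Finset.univ t (Finset.mem_univ l), hxt l]
  field_simp [ht0 l]

/-- Row L6b, `FGEN`: `C = locv k[F, χ(≥ 0)]`. -/
theorem descend_fgen (E : IntermediateField k Ω) (A₂ C : Subalgebra k Ω)
    (hA0 : ∀ a ∈ A₂, v.Ge 0 a) (hAl : ∀ a ∈ A₂, a ≠ 0 → v a = 0 → a⁻¹ ∈ A₂)
    (hC : ∀ x, x ∈ C ↔ x ∈ A₂ ∧ x ∈ E)
    (θ : Ω) (hθ : θ ∈ A₂) (f : Polynomial Ω) (hf : f.Monic) (hc : ∀ i, f.coeff i ∈ C)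
    (h0 : f.eval θ = 0)
    (hind : ∀ c : ℕ → Ω, (∀ i, c i ∈ E) → ∑ i ∈ Finset.range f.natDegree, c i * θ ^ i = 0 →
      ∀ i < f.natDegree, c i = 0)
    (hA : A₂ = locv v (Algebra.adjoin k ((C : Set Ω) ∪ {θ})))
    (Γ : AddSubgroup ℝ) (hΓ : Γ.FG) (χ₂ χ : ℝ → Ω)
    (hχ₂ : ∀ γ ∈ Γ, χ₂ γ ≠ 0) (hχ₂v : ∀ γ ∈ Γ, v (χ₂ γ) = γ)
    (hχ₂a : ∀ γ ∈ Γ, ∀ δ ∈ Γ, χ₂ (γ + δ) = χ₂ γ * χ₂ δ)
    (hχ : ∀ γ ∈ Γ, χ γ ≠ 0) (hχv : ∀ γ ∈ Γ, v (χ γ) = γ)
    (hχa : ∀ γ ∈ Γ, ∀ δ ∈ Γ, χ (γ + δ) = χ γ * χ δ)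
    (hχE : ∀ γ ∈ Γ, χ γ ∈ E) (hχu : ∀ γ ∈ Γ, χ₂ γ / χ γ ∈ A₂)
    (hF₂ : ∃ F : Finset Ω, A₂ = locv v (Algebra.adjoin k ((F : Set Ω) ∪ χ₂ '' {γ | γ ∈ Γ ∧ 0 ≤ γ}))) :
    ∃ F : Finset Ω, C = locv v (Algebra.adjoin k ((F : Set Ω) ∪ χ '' {γ | γ ∈ Γ ∧ 0 ≤ γ})) := by
  classical
  have hC0 : ∀ s ∈ C, v.Ge 0 s := fun s hs => hA0 s ((hC s).1 hs).1
  have hCl : ∀ s ∈ C, s ≠ 0 → v s = 0 → s⁻¹ ∈ C := fun s hs h1 h2 =>
    (hC _).2 ⟨hAl s ((hC s).1 hs).1 h1 h2, E.inv_mem ((hC s).1 hs).2⟩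
  obtain ⟨F₂, hF₂⟩ := hF₂
  obtain ⟨G, hG⟩ := hΓ
  have hGΓ : ∀ γ ∈ G, γ ∈ Γ := fun γ hγ => by rw [← hG]; exact AddSubgroup.subset_closure hγ
  -- the finitely many elements which have to be written with coefficients in `C`
  have hF₂A : ∀ x ∈ F₂, x ∈ A₂ := fun x hx => by
    rw [hF₂]; exact le_locv _ (Algebra.subset_adjoin (Or.inl hx))
  let W : Finset Ω := F₂ ∪ G.image fun γ => χ₂ γ / χ γ
  have hW : ∀ x ∈ W, x ∈ locv v (Algebra.adjoin k ((C : Set Ω) ∪ {θ})) := by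
    intro x hx
    rw [← hA]
    rcases Finset.mem_union.1 hx with hx | hx
    · exact hF₂A x hx
    · obtain ⟨γ, hγ, rfl⟩ := Finset.mem_image.1 hx
      exact hχu γ (hGΓ γ hγ)
  obtain ⟨F₀, hF₀C, hF₀W⟩ := exists_finset_locv_all C θ W hW
  let F : Finset Ω := F₀ ∪ (Finset.range (f.natDegree + 1)).image f.coeff
  have hFC : ∀ s ∈ F, s ∈ C := by
    intro s hs
    rcases Finset.mem_union.1 hs with hs | hs
    · exact hF₀C s hs
    · obtain ⟨i, -, rfl⟩ := Finset.mem_image.1 hs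
      exact hc i
  set C' := locv v (Algebra.adjoin k ((F : Set Ω) ∪ χ '' {γ | γ ∈ Γ ∧ 0 ≤ γ})) with hC'
  have hχC : ∀ γ ∈ Γ, 0 ≤ γ → χ γ ∈ C := by
    intro γ hγ h1
    have h2 : χ₂ γ ∈ A₂ := by
      rw [hF₂]
      exact le_locv _ (Algebra.subset_adjoin (Or.inr ⟨γ, ⟨hγ, h1⟩, rfl⟩))
    have h3 : (χ₂ γ / χ γ)⁻¹ ∈ A₂ := hAl _ (hχu γ hγ) (div_ne_zero (hχ₂ γ hγ) (hχ γ hγ)) (by
      rw [v.map_div (hχ₂ γ hγ) (hχ γ hγ), hχ₂v γ hγ, hχv γ hγ, sub_self])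
    refine (hC _).2 ⟨?_, hχE γ hγ⟩
    have h4 := A₂.mul_mem h2 h3
    rwa [inv_div, mul_div_cancel₀ _ (hχ₂ γ hγ)] at h4
  have hC'C : C' ≤ C := by
    refine locv_le ?_ hCl
    rw [Algebra.adjoin_le_iff]
    rintro x (hx | ⟨γ, ⟨hγ, h1⟩, rfl⟩)
    · exact hFC x hx
    · exact hχC γ hγ h1
  have hC'0 : ∀ s ∈ C', v.Ge 0 s := fun s hs => hC0 s (hC'C hs)
  have hC'l : ∀ s ∈ C', s ≠ 0 → v s = 0 → s⁻¹ ∈ C' := fun s hs h1 h2 => locv_inv hs h1 h2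
  have hFC' : ∀ s ∈ F, s ∈ C' := fun s hs => le_locv _ (Algebra.subset_adjoin (Or.inl hs))
  have hc' : ∀ i, f.coeff i ∈ C' := by
    intro i
    rcases Nat.lt_or_ge i (f.natDegree + 1) with hi | hi
    · exact hFC' _ (Finset.mem_union_right _ (Finset.mem_image.2 ⟨i, Finset.mem_range.2 hi, rfl⟩))
    · rw [coeff_eq_zero_of_natDegree_lt (by omega)]
      exact zero_mem _
  -- the ring `T = locv C'[θ]` contains `A₂`
  set T := locv v (Algebra.adjoin k ((C' : Set Ω) ∪ {θ})) with hT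
  have hTl : ∀ s ∈ T, s ≠ 0 → v s = 0 → s⁻¹ ∈ T := fun s hs h1 h2 => locv_inv hs h1 h2
  have hC'T : ∀ s ∈ C', s ∈ T := fun s hs => le_locv _ (Algebra.subset_adjoin (Or.inl hs))
  have hWT : ∀ x ∈ W, x ∈ T := by
    intro x hx
    refine locv_mono (Algebra.adjoin_mono (Set.union_subset_union_left _ ?_)) (hF₀W x hx)
    intro s hs
    exact hFC' s (Finset.mem_union_left _ hs)
  have hεT : ∀ γ ∈ Γ, χ₂ γ / χ γ ∈ T := by
    intro γ hγ
    rw [← hG] at hγ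
    have key : ∀ γ (hγ : γ ∈ AddSubgroup.closure (G : Set ℝ)), γ ∈ Γ ∧ χ₂ γ / χ γ ∈ T := by
      intro γ hγ
      induction hγ using AddSubgroup.closure_induction with
      | mem γ hγ =>
        exact ⟨hGΓ γ hγ, hWT _ (Finset.mem_union_right _ (Finset.mem_image.2 ⟨γ, hγ, rfl⟩))⟩
      | zero =>
        refine ⟨Γ.zero_mem, ?_⟩
        have h1 : χ₂ 0 = 1 := by
          have h := hχ₂a 0 Γ.zero_mem 0 Γ.zero_mem
          rw [add_zero] at h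
          exact (mul_right_cancel₀ (hχ₂ 0 Γ.zero_mem) (by rw [one_mul]; exact h)).symm
        have h2 : χ 0 = 1 := by
          have h := hχa 0 Γ.zero_mem 0 Γ.zero_mem
          rw [add_zero] at h
          exact (mul_right_cancel₀ (hχ 0 Γ.zero_mem) (by rw [one_mul]; exact h)).symm
        rw [h1, h2, div_one]
        exact one_mem _
      | add γ δ _ _ h1 h2 =>
        refine ⟨Γ.add_mem h1.1 h2.1, ?_⟩
        rw [hχ₂a γ h1.1 δ h2.1, hχa γ h1.1 δ h2.1, ← div_mul_div_comm]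
        exact mul_mem h1.2 h2.2
      | neg γ _ h1 =>
        refine ⟨Γ.neg_mem h1.1, ?_⟩
        have h2 : ∀ (φ : ℝ → Ω), (∀ γ ∈ Γ, φ γ ≠ 0) →
            (∀ γ ∈ Γ, ∀ δ ∈ Γ, φ (γ + δ) = φ γ * φ δ) → φ (-γ) = (φ γ)⁻¹ := by
          intro φ hφ hφa
          have h := hφa 0 Γ.zero_mem 0 Γ.zero_mem
          rw [add_zero] at h
          have h3 : φ 0 = 1 :=
            (mul_right_cancel₀ (hφ 0 Γ.zero_mem) (by rw [one_mul]; exact h)).symm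
          have h4 := hφa γ h1.1 (-γ) (Γ.neg_mem h1.1)
          rw [add_neg_cancel, h3] at h4
          exact (inv_eq_of_mul_eq_one_right h4.symm).symm
        rw [h2 χ₂ hχ₂ hχ₂a, h2 χ hχ hχa, ← inv_div_inv, inv_inv, inv_inv] 
        have h5 := hTl _ h1.2 (div_ne_zero (hχ₂ γ h1.1) (hχ γ h1.1)) (by
          rw [v.map_div (hχ₂ γ h1.1) (hχ γ h1.1), hχ₂v γ h1.1, hχv γ h1.1, sub_self])
        rwa [inv_div] at h5
    exact (key γ hγ).2
  have hA₂T : A₂ ≤ T := by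
    rw [hF₂]
    refine locv_le ?_ hTl
    rw [Algebra.adjoin_le_iff]
    rintro x (hx | ⟨γ, ⟨hγ, h1⟩, rfl⟩)
    · exact hWT x (Finset.mem_union_left _ hx)
    · have h2 := mul_mem (hC'T _ (le_locv _ (Algebra.subset_adjoin (Or.inr ⟨γ, ⟨hγ, h1⟩, rfl⟩))))
        (hεT γ hγ)
      rwa [mul_div_cancel₀ _ (hχ γ hγ)] at h2
  refine ⟨F, le_antisymm ?_ hC'C⟩
  intro a ha
  obtain ⟨x, hx, t, ht, ht0, hvt, hxt⟩ := hA₂T ((hC a).1 ha).1
  obtain ⟨c, hcC', hac⟩ := descend_coeff C' E hC'0 hC'l (fun s hs => ((hC s).1 (hC'C hs)).2) θ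
    (hA0 θ hθ) f hf hc' h0 hind ((hC a).1 ha).2 ht ht0 hvt (fun _ : Unit => (1 : Ω))
    (fun _ => x) (fun _ => E.one_mem) (fun _ => hx) (by
      rw [Fintype.sum_unique, one_mul, hxt, div_mul_cancel₀ _ ht0])
  rw [Fintype.sum_unique, one_mul] at hac
  rw [hac]
  exact hcC' _

end Desc

end Pool.Agent.ALL
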