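import Mathlib

/-!
# ALLDEFECT, block Z: the abstract lemma S2

A finitely generated submodule `M` of rank one of a field `κ ⊇ A`, `A` local, with
`M = A-span of θ M^[q]`, is generated by one element, if Frobenius of `A` is flat in the form
(`A` has a `q`-basis which stays independent over `κ^q`).
-/

set_option autoImplicit false

namespace Pool.Agent.ALL

open IsLocalRing Submodule

/-- Abstract lemma S2. -/
theorem frobenius_principal {A κ : Type*} [CommRing A] [IsLocalRing A] [Field κ] [Algebra A κ]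
    (hinj : Function.Injective (algebraMap A κ)) (p : ℕ) [hp : Fact p.Prime] [CharP κ p] (j : ℕ)
    (hj : j ≠ 0) {B : Type*} [Fintype B] (b : B → A)
    (H1 : ∀ a : A, ∃ c : B → A, a = ∑ β, b β * c β ^ p ^ j)
    (H2 : ∀ c : B → κ, ∑ β, algebraMap A κ (b β) * c β ^ p ^ j = 0 → ∀ β, c β = 0)
    (H3 : ∀ a : A, (∀ N, a ∈ maximalIdeal A ^ N) → a = 0)
    (M : Submodule A κ) (hM : M.FG) (hM0 : M ≠ ⊥)
    (hrank : ∀ g ∈ M, ∀ g' ∈ M, ∃ a a' : A, (a ≠ 0 ∨ a' ≠ 0) ∧ a • g = a' • g')
    (θ : κ) (hθ1 : ∀ g ∈ M, θ * g ^ p ^ j ∈ M)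
    (hθ2 : M ≤ span A ((fun g => θ * g ^ p ^ j) '' (M : Set κ))) :
    ∃ g ∈ M, g ≠ 0 ∧ M = span A {g} ∧ ∃ u : Aˣ, θ * g ^ p ^ j = (u : A) • g := by
  classical
  set q := p ^ j with hq
  have hq2 : 2 ≤ q := by
    calc 2 ≤ p := hp.out.two_le
      _ = p ^ 1 := (pow_one p).symm
      _ ≤ p ^ j := Nat.pow_le_pow_right hp.out.pos (Nat.one_le_iff_ne_zero.2 hj)
  -- a minimal system of generators
  have hex : ∃ s : ℕ, ∃ g : Fin s → κ, span A (Set.range g) = M := by
    obtain ⟨n, g, hg⟩ := Submodule.fg_iff_exists_fin_generating_family.1 hM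
    exact ⟨n, g, hg⟩
  obtain ⟨s, ⟨g, hg⟩, hmin⟩ : ∃ s : ℕ, (∃ g : Fin s → κ, span A (Set.range g) = M) ∧
      ∀ m < s, ¬ ∃ g : Fin m → κ, span A (Set.range g) = M :=
    ⟨Nat.find hex, Nat.find_spec hex, fun m hm => Nat.find_min hex hm⟩
  have hgM : ∀ i, g i ∈ M := fun i => by rw [← hg]; exact subset_span ⟨i, rfl⟩
  have hs0 : s ≠ 0 := by
    intro h0
    apply hM0
    rw [← hg]
    have : IsEmpty (Fin s) := by rw [h0]; infer_instance
    rw [Set.range_eq_empty g, span_empty]
  -- the coefficients of a relation are in the maximal ideal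
  have hrel : ∀ z : Fin s → A, ∑ i, z i • g i = 0 → ∀ i, z i ∈ maximalIdeal A := by
    intro z hz i
    by_contra hi
    have hu : IsUnit (z i) := by
      by_contra hnu
      exact hi ((mem_maximalIdeal _).2 hnu)
    obtain ⟨m, hm⟩ : ∃ m, s = m + 1 := Nat.exists_eq_succ_of_ne_zero hs0
    -- remove `g i`
    have h1 : g i ∈ span A (g '' {l | l ≠ i}) := by
      obtain ⟨u, hu⟩ := hu
      have h2 : g i = ∑ l ∈ Finset.univ.erase i, (-(↑u⁻¹ : A) * z l) • g l := by
        have h3 : (u : A) • g i = - ∑ l ∈ Finset.univ.erase i, z l • g l := by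
          rw [hu, eq_neg_iff_add_eq_zero, Finset.add_sum_erase _ (fun l => z l • g l) (Finset.mem_univ i)]
          exact hz
        have h4 : g i = (↑u⁻¹ : A) • ((u : A) • g i) := by
          rw [smul_smul, Units.inv_mul, one_smul]
        rw [h4, h3, smul_neg, Finset.smul_sum, ← Finset.sum_neg_distrib]
        refine Finset.sum_congr rfl fun l _ => ?_
        rw [smul_smul, neg_mul, neg_smul]
      rw [h2]
      refine sum_mem fun l hl => smul_mem _ _ (subset_span ⟨l, ?_, rfl⟩)
      exact (Finset.mem_erase.1 hl).1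
    have h5 : span A (g '' {l | l ≠ i}) = M := by
      apply le_antisymm
      · rw [span_le]
        rintro _ ⟨l, -, rfl⟩
        exact hgM l
      · rw [← hg, span_le]
        rintro _ ⟨l, rfl⟩
        by_cases hl : l = i
        · rw [hl]; exact h1
        · exact subset_span ⟨l, hl, rfl⟩
    have hcard : Fintype.card {l : Fin s // l ≠ i} = m := by
      rw [Fintype.card_subtype_compl, Fintype.card_fin, Fintype.card_subtype_eq]
      omega
    refine hmin m (by omega) ⟨fun l => g ((Fintype.equivFinOfCardEq hcard).symm l), ?_⟩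
    rw [← h5]
    congr 1
    ext x
    constructor
    · rintro ⟨l, rfl⟩
      exact ⟨_, ((Fintype.equivFinOfCardEq hcard).symm l).2, rfl⟩
    · rintro ⟨l, hl, rfl⟩
      exact ⟨Fintype.equivFinOfCardEq hcard ⟨l, hl⟩, by simp⟩
  have hpow : ∀ (z : Fin s → A), (∑ i, z i • g i) ^ q = ∑ i, z i ^ q • g i ^ q := by
    intro z
    rw [hq, sum_pow_char_pow]
    refine Finset.sum_congr rfl fun i _ => ?_
    rw [smul_pow]
  -- `θ g_i^q` generate `M`
  have hspan : M = span A (Set.range fun i => θ * g i ^ q) := by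
    apply le_antisymm
    · refine hθ2.trans ?_
      rw [span_le]
      rintro _ ⟨m, hm, rfl⟩
      rw [← hg] at hm
      obtain ⟨z, hz⟩ := (mem_span_range_iff_exists_fun A).1 hm
      show θ * m ^ q ∈ _
      rw [← hz, hpow, Finset.mul_sum]
      refine sum_mem fun i _ => ?_
      rw [mul_smul_comm]
      exact smul_mem _ _ (subset_span ⟨i, rfl⟩)
    · rw [span_le]
      rintro _ ⟨i, rfl⟩
      exact hθ1 _ (hgM i)
  have hD : ∀ i, ∃ d : Fin s → A, ∑ l, d l • (θ * g l ^ q) = g i := fun i =>
    (mem_span_range_iff_exists_fun A).1 (by rw [← hspan]; exact hgM i)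
  have hD' : ∀ i, ∃ d : Fin s → A, ∑ l, d l • g l = θ * g i ^ q := fun i =>
    (mem_span_range_iff_exists_fun A).1 (by rw [hg]; exact hθ1 _ (hgM i))
  choose D hD using hD
  choose D' hD' using hD'
  have hθ0 : θ ≠ 0 := by
    rintro rfl
    apply hM0
    rw [hspan, span_eq_bot]
    rintro _ ⟨i, rfl⟩
    exact zero_mul _
  -- `D D' - 1` is in the maximal ideal
  have hDD : ∀ i l, (if i = l then (1 : A) else 0) - ∑ m, D i m * D' m l ∈ maximalIdeal A := by
    intro i
    refine hrel _ ?_
    have h1 : g i = ∑ l, (∑ m, D i m * D' m l) • g l := by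
      calc g i = ∑ m, D i m • (θ * g m ^ q) := (hD i).symm
        _ = ∑ m, D i m • ∑ l, D' m l • g l := Finset.sum_congr rfl fun m _ => by rw [hD' m]
        _ = ∑ m, ∑ l, (D i m * D' m l) • g l := Finset.sum_congr rfl fun m _ => by
            rw [Finset.smul_sum]
            exact Finset.sum_congr rfl fun l _ => smul_smul _ _ _
        _ = ∑ l, ∑ m, (D i m * D' m l) • g l := Finset.sum_comm
        _ = _ := Finset.sum_congr rfl fun l _ => (Finset.sum_smul).symm
    simp only [sub_smul, Finset.sum_sub_distrib]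
    rw [← h1, Finset.sum_eq_single i]
    · rw [if_pos rfl, one_smul, sub_self]
    · intro l _ hl
      rw [if_neg (Ne.symm hl), zero_smul]
    · intro h; exact absurd (Finset.mem_univ _) h
  -- all syzygies are in all the powers of the maximal ideal
  have hsyz : ∀ N : ℕ, ∀ z : Fin s → A, ∑ i, z i • g i = 0 →
      ∀ i, z i ∈ maximalIdeal A ^ (N + 1) := by
    intro N
    induction N with
    | zero =>
      intro z hz i
      rw [zero_add, pow_one]
      exact hrel z hz i
    | succ N ih =>
      intro z hz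
      -- `w = z D`
      set w : Fin s → A := fun l => ∑ i, z i * D i l with hw
      have h1 : ∑ l, w l • g l ^ q = 0 := by
        have h2 : θ * ∑ l, w l • g l ^ q = 0 := by
          calc θ * ∑ l, w l • g l ^ q = ∑ l, (∑ i, z i * D i l) • (θ * g l ^ q) := by
                rw [Finset.mul_sum]
                exact Finset.sum_congr rfl fun l _ => by rw [mul_smul_comm]
            _ = ∑ l, ∑ i, (z i * D i l) • (θ * g l ^ q) :=
                Finset.sum_congr rfl fun l _ => Finset.sum_smul
            _ = ∑ i, ∑ l, (z i * D i l) • (θ * g l ^ q) := Finset.sum_comm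
            _ = ∑ i, z i • ∑ l, D i l • (θ * g l ^ q) := Finset.sum_congr rfl fun i _ => by
                rw [Finset.smul_sum]
                exact Finset.sum_congr rfl fun l _ => mul_smul _ _ _
            _ = ∑ i, z i • g i := Finset.sum_congr rfl fun i _ => by rw [hD i]
            _ = 0 := hz
        exact (mul_eq_zero.1 h2).resolve_left hθ0
      have hc : ∀ l, ∃ c : B → A, w l = ∑ β, b β * c β ^ q := fun l => H1 (w l)
      choose c hc using hc
      have h2 : ∀ β, ∑ l, c l β • g l = 0 := by
        refine H2 (fun β => ∑ l, c l β • g l) ?_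
        rw [← h1]
        calc ∑ β, algebraMap A κ (b β) * (∑ l, c l β • g l) ^ q
            = ∑ β, ∑ l, (b β * c l β ^ q) • g l ^ q := Finset.sum_congr rfl fun β _ => by
              rw [hpow, Finset.mul_sum]
              refine Finset.sum_congr rfl fun l _ => ?_
              rw [mul_smul, Algebra.smul_def (b β)]
          _ = ∑ l, ∑ β, (b β * c l β ^ q) • g l ^ q := Finset.sum_comm
          _ = ∑ l, w l • g l ^ q := Finset.sum_congr rfl fun l _ => by
              rw [hc l, Finset.sum_smul]
      have h3 : ∀ l, w l ∈ maximalIdeal A ^ (N + 1 + 1) := by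
        intro l
        rw [hc l]
        refine Ideal.sum_mem _ fun β _ => Ideal.mul_mem_left _ _ ?_
        have h4 := ih _ (h2 β) l
        have h5 := Ideal.pow_mem_pow h4 q
        rw [← pow_mul] at h5
        refine Ideal.pow_le_pow_right ?_ h5
        nlinarith
      intro i
      have h6 : z i = ∑ m, w m * D' m i +
          ∑ l, z l * ((if l = i then (1 : A) else 0) - ∑ m, D l m * D' m i) := by
        have h7 : ∑ m, w m * D' m i = ∑ l, z l * ∑ m, D l m * D' m i := by
          calc ∑ m, w m * D' m i = ∑ m, ∑ l, z l * D l m * D' m i :=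
                Finset.sum_congr rfl fun m _ => by rw [hw, Finset.sum_mul]
            _ = ∑ l, ∑ m, z l * D l m * D' m i := Finset.sum_comm
            _ = _ := Finset.sum_congr rfl fun l _ => by
                rw [Finset.mul_sum]
                exact Finset.sum_congr rfl fun m _ => mul_assoc _ _ _
        rw [h7]
        simp only [mul_sub, Finset.sum_sub_distrib]
        rw [add_sub_cancel, Finset.sum_eq_single i]
        · rw [if_pos rfl, mul_one]
        · intro l _ hl
          rw [if_neg hl, mul_zero]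
        · intro h; exact absurd (Finset.mem_univ _) h
      rw [h6]
      refine Ideal.add_mem _ (Ideal.sum_mem _ fun m _ => Ideal.mul_mem_right _ _ (h3 m))
        (Ideal.sum_mem _ fun l _ => ?_)
      rw [pow_succ]
      exact Ideal.mul_mem_mul (ih z hz l) (hDD l i)
  have hsyz0 : ∀ z : Fin s → A, ∑ i, z i • g i = 0 → ∀ i, z i = 0 := by
    intro z hz i
    refine H3 _ fun N => ?_
    exact Ideal.pow_le_pow_right (Nat.le_succ N) (hsyz N z hz i)
  -- hence `s = 1`
  have hs1 : s = 1 := by
    by_contra hne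
    have h2 : 2 ≤ s := by omega
    set i₀ : Fin s := ⟨0, by omega⟩
    set i₁ : Fin s := ⟨1, by omega⟩
    have hne' : i₀ ≠ i₁ := by
      intro h
      have := congrArg Fin.val h
      simp [i₀, i₁] at this
    obtain ⟨a, a', ha, haa⟩ := hrank _ (hgM i₀) _ (hgM i₁)
    have h3 := hsyz0 (fun i => if i = i₀ then a else if i = i₁ then -a' else 0) (by
      rw [← Finset.add_sum_erase _ _ (Finset.mem_univ i₀),
        ← Finset.add_sum_erase _ _ (Finset.mem_erase.2 ⟨hne'.symm, Finset.mem_univ i₁⟩)]
      rw [if_pos rfl, if_neg hne'.symm, if_pos rfl, Finset.sum_eq_zero, add_zero, neg_smul, haa,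
        add_neg_cancel]
      intro l hl
      have h4 := Finset.mem_erase.1 hl
      have h5 := Finset.mem_erase.1 h4.2
      rw [if_neg h5.1, if_neg h4.1, zero_smul])
    have h4 := h3 i₀
    have h5 := h3 i₁
    rw [if_pos rfl] at h4
    rw [if_neg hne'.symm, if_pos rfl, neg_eq_zero] at h5
    exact ha.elim (fun h => h h4) (fun h => h h5)
  set i₀ : Fin s := ⟨0, by omega⟩ with hi₀
  have huniq : ∀ i : Fin s, i = i₀ := by
    intro i
    apply Fin.ext
    have := i.2
    simp only [hi₀]
    omega
  have hg0 : g i₀ ≠ 0 := by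
    intro h0
    have := hsyz0 (fun _ => 1) (by
      refine Finset.sum_eq_zero fun i _ => ?_
      rw [huniq i, h0, smul_zero]) i₀
    exact one_ne_zero this
  have hMg : M = span A {g i₀} := by
    rw [← hg]
    congr 1
    ext x
    constructor
    · rintro ⟨i, rfl⟩
      rw [huniq i]
      rfl
    · rintro rfl
      exact ⟨i₀, rfl⟩
  have hsum : ∀ f : Fin s → κ, ∑ i, f i = f i₀ := by
    intro f
    rw [Finset.sum_eq_single i₀]
    · intro i _ hi
      exact absurd (huniq i) hi
    · intro h; exact absurd (Finset.mem_univ _) h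
  have h1 := hD i₀
  have h2 := hD' i₀
  rw [hsum] at h1 h2
  have h3 : D i₀ i₀ * D' i₀ i₀ = 1 := by
    have h4 : (D i₀ i₀ * D' i₀ i₀) • g i₀ = (1 : A) • g i₀ := by
      rw [mul_smul, h2, h1, one_smul]
    rw [Algebra.smul_def, Algebra.smul_def] at h4
    exact hinj (mul_right_cancel₀ hg0 h4)
  exact ⟨g i₀, hgM i₀, hg0, hMg, ⟨D' i₀ i₀, D i₀ i₀, by rw [mul_comm]; exact h3, h3⟩, h2.symm⟩

end Pool.Agent.ALL
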